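import Pool.Agent.Y5.S2.Stm2
import Pool.Agent.Y319.NSG.Dis

/-! The order of the dilated skew operator. -/

open Set Filter Topology MeasureTheory

set_option autoImplicit false

namespace Pool.Agent.Y232.NS

open Pool.Agent.Y5 Pool.Agent.Y5.D Pool.Agent.Y5.E Pool.Agent.Y5.F Pool.Agent.Y5.G
  Pool.Agent.Y274.NE Pool.Agent.Y319.NSG
open Pool.Agent.Y5.S2 (Ord2 Ord3 σC sC S_ORDD)

/-- the Dirichlet integral is the first Sobolev form -/
lemma dir_eq (hF : S_FLD2) (V : Fam) (hV : OT V) (rV : Rap V) :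
    dir (fieldOf V) = sob 1 (fieldOf V) := by
  rw [sob_eq hF 1 V hV rV, hF.1.2.2 V hV rV, ← tsum_mul_left]
  refine tsum_congr fun k => ?_
  have h : (2 * (1 : ℝ)) = ((2 : ℕ) : ℝ) := by norm_num
  rw [h, Real.rpow_natCast]
  ring

/-- monotonicity of the Sobolev forms -/
lemma sob_mono (hF : S_FLD2) (V : Fam) (hV : OT V) (rV : Rap V) {a b : ℝ} (ha : 0 < a)
    (hab : a ≤ b) : sob a (fieldOf V) ≤ sob b (fieldOf V) := by
  rw [sob_eq hF a V hV rV, sob_eq hF b V hV rV]
  refine (sum_w rV (2 * a) (by linarith)).tsum_le_tsum (fun k => ?_)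
    (sum_w rV (2 * b) (by linarith))
  by_cases hk : k = 0
  · subst hk
    have h0 : vec (0 : Z3) = 0 := by
      ext i
      simp [vec]
    rw [h0, norm_zero, mul_zero, Real.zero_rpow (by linarith), Real.zero_rpow (by linarith)]
  · have h3 : 1 ≤ ‖vec k‖ := one_le_vec hk
    have h4 : 1 ≤ 2 * Real.pi * ‖vec k‖ := by
      have := Real.pi_gt_three
      nlinarith
    have h5 := Real.rpow_le_rpow_of_exponent_le h4 (show 2 * a ≤ 2 * b by linarith)
    gcongr

theorem t_ORDD : S_ORDD := by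
  intro hF hDil hCmp J g L M e σ s ε δ hε hδ hB hO
  obtain ⟨Cf, hCf⟩ := hO.form
  obtain ⟨N, hN, hNδ⟩ := exists_N |Cf| δ (2 * ε) hδ (by linarith)
  refine ⟨N, hN, ?_⟩
  have hN1 : (1 : ℝ) ≤ N := by exact_mod_cast hN
  have hN0 : (0 : ℝ) < N := by linarith
  obtain ⟨-, -, d3, d4, d5, d6, -, -, -, -, -, -, -, d14, -⟩ := hDil N hN
  obtain ⟨c1, c2, -⟩ := hCmp N hN
  have hπ := Real.pi_pos
  have otE : ∀ i, OT (eC N e i) := by
    rintro (a | p)
    · exact d3 _ (hB.ot a)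
    · exact c1 p
  have rapE : ∀ i, Rap (eC N e i) := by
    rintro (a | p)
    · exact d5 _ (rap_e hB a)
    · exact rap_of_supp ‖vec p.1.1‖ (fun k hk => (c2 p k hk).2.le)
  have hip : ∀ V, OT V → Rap V → ∀ i, ip (fieldOf V) (fieldOf (eC N e i)) = pair V (eC N e i) :=
    fun V hV rV i => hF.1.1 _ _ hV rV (otE i) (rapE i)
  have hipB : ∀ V, OT V → Rap V → ∀ a, ip (fieldOf V) (fieldOf (e a)) = pair V (e a) :=
    fun V hV rV a => hF.1.1 _ _ hV rV (hB.ot a) (rap_e hB a)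
  have hil : ∀ V a, pair V (eC N e (Sum.inl a)) = pair (res N V) (e a) := fun V a => d14 V (e a)
  have hsob : ∀ V, OT V → Rap V → ∀ s : ℝ, 0 ≤ s → sob s (fieldOf V) =
      (N : ℝ) ^ (2 * s) * sob s (fieldOf (res N V)) + nd N (2 * s) V := by
    intro V hV rV s hs
    rw [sob_eq hF s V hV rV, sob_eq hF s _ (d4 V hV) (d6 V rV), split hDil hN rV (2 * s)
      (by linarith)]
  have hres : ∀ V, OT V → Rap V → ∀ s : ℝ, 0 ≤ s →
      (N : ℝ) ^ (2 * s) * sob s (fieldOf (res N V)) ≤ sob s (fieldOf V) := by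
    intro V hV rV s hs
    rw [hsob V hV rV s hs]
    have := nd_nonneg N (2 * s) V
    linarith
  -- the sums
  have hsum : ∀ V W, OT V → Rap V → OT W → Rap W → HasSum (fun i => sC N s i *
      ip (fieldOf V) (fieldOf (eC N e (σC N σ i))) * ip (fieldOf W) (fieldOf (eC N e i)))
      ((N : ℝ) ^ 2 * ∑' a, s a * ip (fieldOf (res N V)) (fieldOf (e (σ a))) *
        ip (fieldOf (res N W)) (fieldOf (e a))) := by
    intro V W hV rV hW rW
    have h1 := (hCf _ _ ⟨res N V, d4 V hV, d6 V rV, rfl⟩ ⟨res N W, d4 W hW, d6 W rW, rfl⟩).1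
    have h2 := h1.hasSum.mul_left ((N : ℝ) ^ 2)
    have h3 : HasSum ((fun i => sC N s i *
      ip (fieldOf V) (fieldOf (eC N e (σC N σ i))) * ip (fieldOf W) (fieldOf (eC N e i))) ∘
      Sum.inr) 0 := by
      have h4 : ((fun i => sC N s i * ip (fieldOf V) (fieldOf (eC N e (σC N σ i))) *
          ip (fieldOf W) (fieldOf (eC N e i))) ∘ Sum.inr) = fun _ : Kx N => (0 : ℝ) := by
        funext p
        simp only [Function.comp, sC, zero_mul]
      rw [h4]
      exact hasSum_zero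
    have h5 : ((fun i => sC N s i * ip (fieldOf V) (fieldOf (eC N e (σC N σ i))) *
          ip (fieldOf W) (fieldOf (eC N e i))) ∘ Sum.inl) = fun a =>
        (N : ℝ) ^ 2 * (s a * ip (fieldOf (res N V)) (fieldOf (e (σ a))) *
        ip (fieldOf (res N W)) (fieldOf (e a))) := by
      funext a
      simp only [Function.comp, sC, σC]
      rw [hip V hV rV, hip W hW rW, hil, hil, hipB _ (d4 V hV) (d6 V rV),
        hipB _ (d4 W hW) (d6 W rW)]
      ring
    rw [← h5] at h2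
    have h6 := h2.sum h3
    rw [add_zero] at h6
    exact h6
  -- the bound of the form
  have hform : ∀ V W, OT V → Rap V → OT W → Rap W → ∀ r : ℝ, 1 ≤ r →
      |(N : ℝ) ^ 2 * ∑' a, s a * ip (fieldOf (res N V)) (fieldOf (e (σ a))) *
        ip (fieldOf (res N W)) (fieldOf (e a))| ≤
      |Cf| * (N : ℝ) ^ (-(2 * (r - 1))) * (√(sob r (fieldOf V)) * √(sob r (fieldOf W))) := by
    intro V W hV rV hW rW r hr
    have h1 := (hCf _ _ ⟨res N V, d4 V hV, d6 V rV, rfl⟩ ⟨res N W, d4 W hW, d6 W rW, rfl⟩).2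
    rw [dir_eq hF _ (d4 V hV) (d6 V rV), dir_eq hF _ (d4 W hW) (d6 W rW)] at h1
    have hd : ∀ V, OT V → Rap V → √(sob 1 (fieldOf (res N V))) ≤
        (N : ℝ) ^ (-r) * √(sob r (fieldOf V)) := by
      intro V hV rV
      have h2 := sob_mono hF _ (d4 V hV) (d6 V rV) one_pos hr
      have h3 := hres V hV rV r (by linarith)
      have h4 : (N : ℝ) ^ r * √(sob r (fieldOf (res N V))) ≤ √(sob r (fieldOf V)) := by
        apply Real.le_sqrt_of_sq_le
        rw [mul_pow, Real.sq_sqrt (sob_nonneg _ _), ← Real.rpow_natCast ((N : ℝ) ^ r) 2,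
          ← Real.rpow_mul hN0.le]
        refine le_trans (le_of_eq ?_) h3
        congr 2
        push_cast
        ring
      have h5 : 0 < (N : ℝ) ^ r := by positivity
      calc √(sob 1 (fieldOf (res N V))) ≤ √(sob r (fieldOf (res N V))) := Real.sqrt_le_sqrt h2
        _ = (N : ℝ) ^ (-r) * ((N : ℝ) ^ r * √(sob r (fieldOf (res N V)))) := by
          rw [← mul_assoc, ← Real.rpow_add hN0, neg_add_cancel, Real.rpow_zero, one_mul]
        _ ≤ _ := mul_le_mul_of_nonneg_left h4 (by positivity)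
    have hV1 := hd V hV rV
    have hW1 := hd W hW rW
    rw [abs_mul, abs_of_nonneg (by positivity : (0 : ℝ) ≤ (N : ℝ) ^ 2)]
    calc (N : ℝ) ^ 2 * |∑' a, s a * ip (fieldOf (res N V)) (fieldOf (e (σ a))) *
          ip (fieldOf (res N W)) (fieldOf (e a))| ≤
        (N : ℝ) ^ 2 * (|Cf| * (√(sob 1 (fieldOf (res N V))) *
          √(sob 1 (fieldOf (res N W))))) := by
          refine mul_le_mul_of_nonneg_left (h1.trans ?_) (by positivity)
          exact mul_le_mul_of_nonneg_right (le_abs_self _) (by positivity)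
      _ ≤ (N : ℝ) ^ 2 * (|Cf| * (((N : ℝ) ^ (-r) * √(sob r (fieldOf V))) *
          ((N : ℝ) ^ (-r) * √(sob r (fieldOf W))))) := by
          gcongr
      _ = |Cf| * ((N : ℝ) ^ 2 * (N : ℝ) ^ (-r) * (N : ℝ) ^ (-r)) *
          (√(sob r (fieldOf V)) * √(sob r (fieldOf W))) := by ring
      _ = _ := by
          congr 2
          rw [← Real.rpow_natCast (N : ℝ) 2, ← Real.rpow_add hN0, ← Real.rpow_add hN0]
          congr 1
          push_cast
          ring
  refine ⟨⟨|Cf|, ?_⟩, ?_, ?_⟩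
  · rintro v w ⟨V, hV, rV, rfl⟩ ⟨W, hW, rW, rfl⟩
    have h1 := hsum V W hV rV hW rW
    refine ⟨h1.summable, ?_⟩
    rw [h1.tsum_eq, dir_eq hF V hV rV, dir_eq hF W hW rW]
    have h2 := hform V W hV rV hW rW 1 le_rfl
    rw [sub_self, mul_zero, neg_zero, Real.rpow_zero, mul_one] at h2
    exact h2
  · rintro v w ⟨V, hV, rV, rfl⟩ ⟨W, hW, rW, rfl⟩
    have h1 := hsum V W hV rV hW rW
    rw [h1.tsum_eq]
    have h2 := hform V W hV rV hW rW (1 + ε) (by linarith)
    rw [add_sub_cancel_left] at h2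
    exact h2.trans (mul_le_mul_of_nonneg_right hNδ (by positivity))
  · -- order
    intro m
    obtain ⟨C0, hC0⟩ := hO.ord m
    obtain ⟨K, hK⟩ : ∃ K : ℝ, K = (N : ℝ) ^ (2 * (m : ℝ)) * ((N : ℝ) ^ (2 * (1 : ℝ))) ^ 2 :=
      ⟨_, rfl⟩
    have hK0 : 0 ≤ K := by rw [hK]; positivity
    refine ⟨|C0| * K, ?_⟩
    rintro v ⟨V, hV, rV, rfl⟩
    obtain ⟨w0, ⟨W0, oW, rW, rfl⟩, hw1, hw2⟩ := hC0 _ ⟨res N V, d4 V hV, d6 V rV, rfl⟩
    simp only [hipB _ oW rW, hipB _ (d4 V hV) (d6 V rV)] at hw1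
    have oWd := Wd_ot hDil hN 0 1 oW hV
    have rWd := Wd_rap hDil hN 0 1 (by norm_num) rW rV
    refine ⟨fieldOf (Wd N 0 1 W0 V), ⟨_, oWd, rWd, rfl⟩, ?_, ?_⟩
    · intro i
      rw [hip _ oWd rWd, hip _ hV rV]
      rcases i with a | p
      · simp only [sC, σC]
        rw [hil, hil, Wd_res hDil hN, pair_smul_left, hw1]
        have h : (2 * (1 : ℝ)) = ((2 : ℕ) : ℝ) := by norm_num
        rw [h, Real.rpow_natCast]
        ring
      · simp only [sC, σC]
        have := Wd_fk hCmp hN 0 1 W0 V p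
        rw [zero_mul, zero_mul] at this
        rw [zero_mul]
        exact this
    · have hm : (0 : ℝ) ≤ m := Nat.cast_nonneg m
      rw [hsob _ oWd rWd m hm]
      have e1 : sob m (fieldOf (res N (Wd N 0 1 W0 V))) =
          ((N : ℝ) ^ (2 * (1 : ℝ))) ^ 2 * sob m (fieldOf W0) := by
        rw [sob_eq hF m _ (d4 _ oWd) (d6 _ rWd), sob_eq hF m _ oW rW, Wd_res hDil hN,
          ← tsum_mul_left]
        refine tsum_congr fun k => ?_
        rw [norm_smul, mul_pow, Real.norm_eq_abs, sq_abs]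
        ring
      have e2 : nd N (2 * m) (Wd N 0 1 W0 V) = 0 := by
        classical
        unfold nd
        have h0 : ∀ k : Z3, (if Dv N k then (0 : ℝ) else (2 * Real.pi * ‖vec k‖) ^ (2 * (m : ℝ)) *
            ‖Wd N 0 1 W0 V k‖ ^ 2) = 0 := by
          intro k
          by_cases hk : Dv N k
          · rw [if_pos hk]
          · rw [if_neg hk]
            unfold Wd
            rw [if_neg hk, zero_mul, zero_smul, norm_zero]
            simp
        rw [tsum_congr h0, tsum_zero]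
      have h1 := sob_nonneg ((m : ℝ) + 2) (fieldOf (res N V))
      have h3 : 1 ≤ (N : ℝ) ^ (2 * ((m : ℝ) + 2)) := Real.one_le_rpow hN1 (by linarith)
      have h4 : sob m (fieldOf W0) ≤ |C0| * sob ((m : ℝ) + 2) (fieldOf (res N V)) :=
        hw2.trans (mul_le_mul_of_nonneg_right (le_abs_self C0) h1)
      have h5 : sob ((m : ℝ) + 2) (fieldOf (res N V)) ≤ sob ((m : ℝ) + 2) (fieldOf V) :=
        (le_mul_of_one_le_left h1 h3).trans (hres V hV rV _ (by linarith))
      rw [e1, e2, add_zero]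
      calc (N : ℝ) ^ (2 * (m : ℝ)) * (((N : ℝ) ^ (2 * (1 : ℝ))) ^ 2 * sob m (fieldOf W0)) =
          K * sob m (fieldOf W0) := by rw [hK]; ring
        _ ≤ K * (|C0| * sob ((m : ℝ) + 2) (fieldOf V)) := by
          refine mul_le_mul_of_nonneg_left (h4.trans ?_) hK0
          exact mul_le_mul_of_nonneg_left h5 (abs_nonneg _)
        _ = _ := by ring

end Pool.Agent.Y232.NS
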